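import Mathlib
import Pool.Agent.Results.MP_93ce62_an.PairsNoBAI
import Pool.Agent.Y644.FB.Core

/-!
# MP_93ce62_an: common factorization of all finite tuples without a bounded approximate identity

A sharp stronger form of the negative answers. Within the class of the problem, factorization of
all finite tuples with one constant implies a bounded approximate identity. Here: it does not, as
soon as the constant is allowed to tend to infinity with the length of the tuple, however slowly,
and even if it is at most `1 + ε` for all tuples up to any given length.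
-/

set_option autoImplicit false

namespace Pool.Agent.Results.MP_93ce62_an.SlowlyGrowingConstants

open Pool.Agent.Results.MP_93ce62_an.PairsNoBAI (FactorsPairs FactorsSums HasBAI DiscreteSpectrum
  CompletelyRegular)
open Pool.Agent.Y644.FB

universe u

/-- **Sharp negative answer to both questions.** Let `ε > 0` and let `φ n` be any sequence of real
numbers tending to infinity, however slowly. There is a commutative, completely regular complex
Banach algebra `A` with discrete maximal ideal space in which, for every `n`, any `n` elements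
`a 0, ..., a (n-1)` have a common factor `b` with cofactors `c i` such that
`‖b‖ * ‖c i‖ ≤ max (1 + ε) (φ n) * ‖a i‖` for each `i`, while `A` has no bounded approximate
identity. In particular `A` satisfies (F-pairs) and (F-sums). -/
theorem result (ε : ℝ) (hε : 0 < ε) (φ : ℕ → ℝ)
    (hφ : Filter.Tendsto φ Filter.atTop Filter.atTop) :
    ∃ (A : Type) (_ : NonUnitalNormedCommRing A) (_ : NormedSpace ℂ A)
    (_ : IsScalarTower ℂ A A) (_ : SMulCommClass ℂ A A) (_ : CompleteSpace A),
    CompletelyRegular A ∧ DiscreteSpectrum A ∧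
      (∀ (n : ℕ) (a : Fin n → A), ∃ (b : A) (c : Fin n → A),
        ∀ i, a i = b * c i ∧ ‖b‖ * ‖c i‖ ≤ max (1 + ε) (φ n) * ‖a i‖) ∧
      FactorsPairs A ∧ FactorsSums A ∧ ¬ HasBAI.{u} A := by
  set η : ℝ := min (ε / 7) 1 with hηdef
  have hη : 0 < η := lt_min (by positivity) one_pos
  have hη1 : η ≤ 1 := min_le_right _ _
  have hη7 : 7 * η ≤ ε := by
    have := min_le_left (ε / 7) 1
    rw [← hηdef] at this
    linarith
  have hη3 : (1 + η) ^ 3 ≤ 1 + ε := by
    have h1 : η ^ 2 ≤ η := by nlinarith
    have h2 : η ^ 3 ≤ η := by nlinarith [mul_nonneg hη.le hη.le]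
    nlinarith
  have hm : ∀ k : ℕ, ∃ m : ℕ, ∀ n, m ≤ n → (1 + η) ^ (k + 2) ≤ φ n := fun k =>
    Filter.eventually_atTop.1 (hφ.eventually_ge_atTop _)
  choose m hm using hm
  choose D hD using fun k : ℕ => exists_data (k + 2) (by omega) (m k) η hη
  have key : ∀ (n : ℕ) (a : Fin n → czero D), ∃ (b : czero D) (c : Fin n → czero D),
      ∀ i, a i = b * c i ∧ ‖b‖ * ‖c i‖ ≤ max (1 + ε) (φ n) * ‖a i‖ := by
    intro n a
    refine tuples_czero (le_max_of_le_left (by linarith)) (fun k => ?_) (fun k => ?_) a
    · rw [(hD k).2.2]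
      exact hη3.trans (le_max_left _ _)
    · rw [(hD k).1, (hD k).2.1]
      rcases le_total n (m k) with h | h
      · exact Or.inl h
      · exact Or.inr ((hm k n h).trans (le_max_right _ _))
  refine ⟨czero D, inferInstance, inferInstance, inferInstance, inferInstance, inferInstance,
    fun F _ φ₀ h => regular_char F φ₀ h, discrete_char, key, ?_, ?_, ?_⟩
  · refine ⟨max (max (1 + ε) (φ 1)) (max (1 + ε) (φ 2)),
      le_max_of_le_left (le_max_of_le_left (by linarith)), ?_⟩
    intro n hn a
    obtain ⟨b, c, h⟩ := key n a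
    refine ⟨b, c, fun i => ⟨(h i).1, (h i).2.trans ?_⟩⟩
    refine mul_le_mul_of_nonneg_right ?_ (norm_nonneg _)
    rcases hn with rfl | rfl
    · exact le_max_left _ _
    · exact le_max_right _ _
  · refine ⟨max (1 + ε) (φ 1), le_max_of_le_left (by linarith), ?_⟩
    intro a
    obtain ⟨b, c, h⟩ := key 1 (fun _ => a)
    refine ⟨b, c 0, 0, 0, ?_, ?_⟩
    · rw [mul_zero, add_zero]
      exact (h 0).1
    · rw [norm_zero, mul_zero, add_zero]
      exact (h 0).2
  · rintro ⟨ι, _, _, _, e, C, hC, he⟩
    have h1 : ∀ k, (D k).K ≤ C := fun k => no_bai_aux (l := Filter.atTop) e C hC he k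
    obtain ⟨k, hk⟩ := pow_unbounded_of_one_lt C (by linarith : (1 : ℝ) < 1 + η)
    have h2 := h1 k
    rw [(hD k).1] at h2
    have h3 : (1 + η) ^ k ≤ (1 + η) ^ (k + 2) := pow_le_pow_right₀ (by linarith) (by omega)
    linarith

end Pool.Agent.Results.MP_93ce62_an.SlowlyGrowingConstants
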